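import Pool.Agent.H49.STK.RV

/-!
# Sums and dilates with small doubling (entropy form)
-/

set_option autoImplicit false

namespace Pool.Agent.H49.STK

open Finset Real
open Pool.Agent.H49.Ent
open scoped BigOperators

universe u v v'

namespace RV

variable {G : Type v} {G' : Type v'} [AddCommGroup G] [AddCommGroup G']

/-- `H(X - X') - H(X)` for independent copies -/
noncomputable def dbl (R : RV.{u} G) : ℝ := (R.add (dil (-1) R)).ent - R.ent

theorem dbl_nonneg (R : RV.{u} G) : 0 ≤ R.dbl := by
  have := ent_le_add_left R (dil (-1) R)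
  unfold dbl
  linarith

/-- `H(X₁ + X₂ - X₃) ≤ H(X) + 2 θ` -/
theorem ent_three (R : RV.{u} G) : ((dil (-1) R).add (R.add R)).ent ≤ R.ent + 2 * R.dbl := by
  have h := kv (dil (-1) R) R R
  have h1 : ((dil (-1) R).add R).ent = R.ent + R.dbl := by
    rw [(add_comm' _ _).ent]
    unfold dbl
    ring
  rw [ent_neg, h1] at h
  linarith

/-- `H(X₁ - X₂ - X₃) ≤ H(X) + 2 θ` -/
theorem ent_three' (R : RV.{u} G) :
    (R.add ((dil (-1) R).add (dil (-1) R))).ent ≤ R.ent + 2 * R.dbl := by
  have h : (dil (-1) ((dil (-1) R).add (R.add R))).ent =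
      (R.add ((dil (-1) R).add (dil (-1) R))).ent := by
    refine Same.ent (((dil_add' (dil (-1) R) (R.add R) (-1)).trans ?_))
    refine Same.add ?_ (dil_add' R R (-1))
    exact (dil_dil' R (-1) (-1)).trans (by simpa using dil_one' R)
  rw [← h, ent_neg]
  exact ent_three R

/-- one more copy, positive -/
theorem ent_succ (R : RV.{u} G) (c : ℤ) :
    (R.add (dil (c + 1) R)).ent ≤ (R.add (dil c R)).ent + 2 * R.dbl := by
  have h := tri ((R.prod R).map (fun g : G × G => (c • g.2, -g.1 - g.2))) (dil (-1) R)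
  have e1 : (((R.prod R).map (fun g : G × G => (c • g.2, -g.1 - g.2))).map
      (fun g => g.1 - g.2)).ent = (R.add (dil (c + 1) R)).ent := by
    refine Same.ent (same_of_equiv (Equiv.refl _) (fun _ => rfl) fun w => ?_)
    change c • R.X w.2 - (-R.X w.1 - R.X w.2) = R.X w.1 + (c + 1) • R.X w.2
    rw [add_smul, one_smul]
    abel
  have e2 : ((((R.prod R).map (fun g : G × G => (c • g.2, -g.1 - g.2))).prod (dil (-1) R)).map
      (fun g => g.1.1 - g.2)).ent = (R.add (dil c R)).ent := by
    have s1 : Same ((((R.prod R).map (fun g : G × G => (c • g.2, -g.1 - g.2))).prod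
        (dil (-1) R)).map (fun g => g.1.1 - g.2))
        ((((R.prod R).map Prod.snd).prod R).map (fun g : G × G => c • g.1 + g.2)) := by
      refine same_of_equiv (Equiv.refl _) (fun _ => rfl) fun w => ?_
      change c • R.X w.1.2 - (-1 : ℤ) • R.X w.2 = c • R.X w.1.2 + R.X w.2
      rw [neg_one_smul]
      abel
    have s2 : Same ((R.prod R).map Prod.snd) R :=
      ((same_swap R R).map Prod.fst).trans (by
        have := same_fst R R
        exact this)
    have s3 := (s2.prod (Same.refl R)).map (fun g : G × G => c • g.1 + g.2)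
    have s4 : Same ((R.prod R).map (fun g : G × G => c • g.1 + g.2)) (R.add (dil c R)) := by
      refine same_of_equiv (Equiv.prodComm _ _) (fun _ => mul_comm _ _) fun w => ?_
      exact add_comm _ _
    exact ((s1.trans s3).trans s4).ent
  have e3 : ((((R.prod R).map (fun g : G × G => (c • g.2, -g.1 - g.2))).prod (dil (-1) R)).map
      (fun g => g.2 - g.1.2)).ent = ((dil (-1) R).add (R.add R)).ent := by
    refine Same.ent (same_of_equiv (Equiv.prodComm _ _) (fun w => ?_) fun w => ?_)
    · exact mul_comm _ _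
    · change (-1 : ℤ) • R.X w.2 - (-R.X w.1.1 - R.X w.1.2) =
        (-1 : ℤ) • R.X w.2 + (R.X w.1.1 + R.X w.1.2)
      abel
  rw [e1, e2, e3, ent_neg] at h
  have := ent_three R
  linarith

/-- one more copy, negative -/
theorem ent_pred (R : RV.{u} G) (c : ℤ) :
    (R.add (dil (c - 1) R)).ent ≤ (R.add (dil c R)).ent + 2 * R.dbl := by
  have h := tri ((R.prod R).map (fun g : G × G => (c • g.2, g.2 - g.1))) (dil (-1) R)
  have e1 : (((R.prod R).map (fun g : G × G => (c • g.2, g.2 - g.1))).map
      (fun g => g.1 - g.2)).ent = (R.add (dil (c - 1) R)).ent := by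
    refine Same.ent (same_of_equiv (Equiv.refl _) (fun _ => rfl) fun w => ?_)
    change c • R.X w.2 - (R.X w.2 - R.X w.1) = R.X w.1 + (c - 1) • R.X w.2
    rw [sub_smul, one_smul]
    abel
  have e2 : ((((R.prod R).map (fun g : G × G => (c • g.2, g.2 - g.1))).prod (dil (-1) R)).map
      (fun g => g.1.1 - g.2)).ent = (R.add (dil c R)).ent := by
    have s1 : Same ((((R.prod R).map (fun g : G × G => (c • g.2, g.2 - g.1))).prod
        (dil (-1) R)).map (fun g => g.1.1 - g.2))
        ((((R.prod R).map Prod.snd).prod R).map (fun g : G × G => c • g.1 + g.2)) := by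
      refine same_of_equiv (Equiv.refl _) (fun _ => rfl) fun w => ?_
      change c • R.X w.1.2 - (-1 : ℤ) • R.X w.2 = c • R.X w.1.2 + R.X w.2
      rw [neg_one_smul]
      abel
    have s2 : Same ((R.prod R).map Prod.snd) R :=
      ((same_swap R R).map Prod.fst).trans (by
        have := same_fst R R
        exact this)
    have s3 := (s2.prod (Same.refl R)).map (fun g : G × G => c • g.1 + g.2)
    have s4 : Same ((R.prod R).map (fun g : G × G => c • g.1 + g.2)) (R.add (dil c R)) := by
      refine same_of_equiv (Equiv.prodComm _ _) (fun _ => mul_comm _ _) fun w => ?_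
      exact add_comm _ _
    exact ((s1.trans s3).trans s4).ent
  have e3 : ((((R.prod R).map (fun g : G × G => (c • g.2, g.2 - g.1))).prod (dil (-1) R)).map
      (fun g => g.2 - g.1.2)).ent = (R.add ((dil (-1) R).add (dil (-1) R))).ent := by
    have s1 : Same ((((R.prod R).map (fun g : G × G => (c • g.2, g.2 - g.1))).prod
        (dil (-1) R)).map (fun g => g.2 - g.1.2))
        ((R.prod (R.prod R)).map (fun g => g.1 + ((-1 : ℤ) • g.2.1 + (-1 : ℤ) • g.2.2))) := by
      refine same_of_equiv (Equiv.prodAssoc _ _ _) (fun w => mul_assoc _ _ _) fun w => ?_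
      change (-1 : ℤ) • R.X w.2 - (R.X w.1.2 - R.X w.1.1) =
        R.X w.1.1 + ((-1 : ℤ) • R.X w.1.2 + (-1 : ℤ) • R.X w.2)
      simp only [neg_one_smul]
      abel
    have s2 : Same ((R.prod (R.prod R)).map (fun g => g.1 + ((-1 : ℤ) • g.2.1 + (-1 : ℤ) • g.2.2)))
        (R.add ((dil (-1) R).add (dil (-1) R))) :=
      same_of_equiv (Equiv.refl _) (fun _ => rfl) fun w => rfl
    exact (s1.trans s2).ent
  rw [e1, e2, e3, ent_neg] at h
  have := ent_three' R
  linarith

theorem ent_dil_zero (R : RV.{u} G) (S : RV.{u} G) : (R.add (dil 0 S)).ent = R.ent := by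
  have s1 : Same (R.add (dil 0 S)) ((R.prod S).map Prod.fst) := by
    refine same_of_equiv (Equiv.refl _) (fun _ => rfl) fun w => ?_
    change R.X w.1 + (0 : ℤ) • S.X w.2 = R.X w.1
    rw [zero_smul, add_zero]
  rw [s1.ent, ent_fst]

theorem ent_dil_nat (R : RV.{u} G) (c : ℕ) :
    (R.add (dil (c : ℤ) R)).ent ≤ R.ent + 2 * c * R.dbl := by
  induction c with
  | zero =>
    have := ent_dil_zero R R
    simp only [Nat.cast_zero, mul_zero, zero_mul, add_zero]
    exact this.le
  | succ c ih =>
    have h := ent_succ R (c : ℤ)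
    push_cast
    linarith

theorem ent_dil_negnat (R : RV.{u} G) (c : ℕ) :
    (R.add (dil (-(c : ℤ)) R)).ent ≤ R.ent + 2 * c * R.dbl := by
  induction c with
  | zero =>
    have := ent_dil_zero R R
    simp only [Nat.cast_zero, mul_zero, zero_mul, add_zero, neg_zero]
    exact this.le
  | succ c ih =>
    have h := ent_pred R (-(c : ℤ))
    have e : (-(c : ℤ) - 1) = -((c + 1 : ℕ) : ℤ) := by push_cast; ring
    rw [e] at h
    push_cast at h ⊢
    linarith

/-- control of a pair -/
def Ctl (x B : RV.{u} G) (C : ℝ) : Prop :=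
  ∀ c : ℤ, (x.add (dil c B)).ent ≤ x.ent + |(c : ℝ)| * C

theorem ctl_self (R : RV.{u} G) : Ctl R R (2 * R.dbl) := by
  intro c
  rcases Int.eq_nat_or_neg c with ⟨n, rfl | rfl⟩
  · have := ent_dil_nat R n
    have e : |(((n : ℤ)) : ℝ)| = n := by
      rw [Int.cast_natCast, abs_of_nonneg (Nat.cast_nonneg n)]
    rw [e]
    linarith
  · have := ent_dil_negnat R n
    have e : |((-(n : ℤ) : ℤ) : ℝ)| = n := by
      push_cast
      rw [abs_neg, abs_of_nonneg (Nat.cast_nonneg n)]
    rw [e]
    linarith

theorem Ctl.same {x B B' : RV.{u} G} {C : ℝ} (h : Ctl x B C) (hB : Same B B') : Ctl x B' C := by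
  intro c
  rw [← ((Same.refl x).add (hB.dil c)).ent]
  exact h c

theorem Ctl.dil {x B : RV.{u} G} {C : ℝ} (h : Ctl x B C) (d : ℤ) : Ctl x (dil d B) (|(d : ℝ)| * C) := by
  intro c
  rw [((Same.refl x).add (dil_dil' B c d)).ent]
  refine (h (c * d)).trans (le_of_eq ?_)
  push_cast
  rw [abs_mul]
  ring

theorem Ctl.add {x B B' : RV.{u} G} {C C' : ℝ} (h : Ctl x B C) (h' : Ctl x B' C') :
    Ctl x (B.add B') (C + C') := by
  intro c
  rw [((Same.refl x).add (dil_add' B B' c)).ent]
  have := kv x (RV.dil c B) (RV.dil c B')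
  have h1 := h c
  have h2 := h' c
  linarith

theorem Ctl.ent_le {x B : RV.{u} G} {C : ℝ} (h : Ctl x B C) : B.ent ≤ x.ent + C := by
  have h1 := h 1
  rw [((Same.refl x).add (dil_one' B)).ent] at h1
  have h2 := ent_le_add_right x B
  simp only [Int.cast_one, abs_one, one_mul] at h1
  linarith

/-! ### Linear combinations of independent copies -/

/-- the variable `0` -/
@[reducible] def zero (G : Type v) [AddCommGroup G] : RV.{u} G where
  Ω := PUnit
  fin := inferInstance
  p := fun _ => 1
  nonneg := fun _ => zero_le_one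
  one := by simp
  X := fun _ => 0

theorem add_zero' (R : RV.{u} G) : Same (R.add (zero G)) R := by
  refine same_of_equiv (Equiv.prodPUnit _) (fun w => ?_) fun w => ?_
  · change R.p w.1 * 1 = R.p w.1
    rw [mul_one]
  · change R.X w.1 + 0 = R.X w.1
    rw [add_zero]

theorem ctl_zero (x : RV.{u} G) : Ctl x (zero G) 0 := by
  intro c
  have s : Same (RV.dil c (zero.{u} G)) (zero G) := by
    refine same_of_equiv (Equiv.refl _) (fun _ => rfl) fun w => ?_
    change c • (0 : G) = 0
    rw [smul_zero]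
  rw [((Same.refl x).add s).ent, (add_zero' x).ent, mul_zero, add_zero]

/-- `∑_j c_j A_j`, on the space `Fin n → Ω` -/
@[reducible] def comb (n : ℕ) (c : Fin n → ℤ) (A : RV.{u} G) : RV.{u} G where
  Ω := Fin n → A.Ω
  fin := inferInstance
  p := fun w => ∏ j, A.p (w j)
  nonneg := fun w => Finset.prod_nonneg fun j _ => A.nonneg _
  one := by
    classical
    rw [← Fintype.piFinset_univ, Finset.sum_prod_piFinset univ (fun _ ω => A.p ω)]
    simp [A.one]
  X := fun w => ∑ j, c j • A.X (w j)

theorem comb_succ (n : ℕ) (c : Fin (n + 1) → ℤ) (A : RV.{u} G) :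
    Same (comb (n + 1) c A) ((dil (c 0) A).add (comb n (fun j => c j.succ) A)) := by
  refine same_of_equiv (Fin.consEquiv (fun _ => A.Ω)).symm (fun w => ?_) fun w => ?_
  · change ∏ j, A.p (w j) = A.p (w 0) * ∏ j : Fin n, A.p (w j.succ)
    rw [Fin.prod_univ_succ]
  · change ∑ j, c j • A.X (w j) = c 0 • A.X (w 0) + ∑ j : Fin n, c j.succ • A.X (w j.succ)
    rw [Fin.sum_univ_succ]

theorem comb_zero (c : Fin 0 → ℤ) (A : RV.{u} G) : Same (comb 0 c A) (zero G) := by
  refine same_of_equiv (Equiv.ofUnique _ _) (fun w => ?_) fun w => ?_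
  · change ∏ j : Fin 0, A.p (w j) = 1
    simp
  · change ∑ j : Fin 0, c j • A.X (w j) = 0
    simp

theorem ctl_comb (n : ℕ) {x A : RV.{u} G} {C : ℝ} (h : Ctl x A C) :
    ∀ c : Fin n → ℤ, Ctl x (comb n c A) ((∑ j, |((c j : ℤ) : ℝ)|) * C) := by
  induction n with
  | zero =>
    intro c
    have := (ctl_zero x).same (comb_zero c A).symm
    simpa using this
  | succ n ih =>
    intro c
    have h1 := ((h.dil (c 0)).add (ih (fun j => c j.succ))).same (comb_succ n c A).symm
    rw [Fin.sum_univ_succ, add_mul]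
    exact h1

theorem ent_le_comb (n : ℕ) (A : RV.{u} G) :
    ∀ (c : Fin n → ℤ) (j : Fin n), c j = 1 → A.ent ≤ (comb n c A).ent := by
  induction n with
  | zero => intro c j; exact j.elim0
  | succ n ih =>
    intro c j hj
    rw [(comb_succ n c A).ent]
    refine Fin.cases ?_ ?_ j (motive := fun j => c j = 1 →
      A.ent ≤ ((RV.dil (c 0) A).add (comb n (fun j => c j.succ) A)).ent) hj
    · intro h0
      refine le_trans ?_ (ent_le_add_left _ _)
      rw [h0, (dil_one' A).ent]
    · intro i hi
      exact le_trans (ih (fun j => c j.succ) i hi) (ent_le_add_right _ _)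

theorem comb_map (n : ℕ) (c : Fin n → ℤ) (A : RV.{u} G) (f : G →+ G') :
    Same ((comb n c A).map f) (comb n c (A.map f)) := by
  refine same_of_equiv (Equiv.refl _) (fun _ => rfl) fun w => ?_
  change f (∑ j, c j • A.X (w j)) = ∑ j, c j • f (A.X (w j))
  rw [map_sum]
  exact Finset.sum_congr rfl fun j _ => map_zsmul f _ _

end RV

end Pool.Agent.H49.STK
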