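import Pool.Agent.H49.STK.Vand

/-!
# Families whose slices have small doubling: integer form
-/

set_option autoImplicit false

namespace Pool.Agent.H49.STK

open Finset Real
open Pool.Agent.H49.Ent
open scoped BigOperators

universe u v v'

namespace RV

variable {m : ℕ}

/-- iterated closure -/
def seq {G : Type v} [AddCommGroup G] (k0 : ℕ) (A : RV.{u} G) : ℕ → RV.{u} G
  | 0 => A
  | s + 1 => acc k0 (seq k0 A s) (k0 - 1)

theorem bd_acc {G : Type v} [AddCommGroup G] (k0 : ℕ) (A : RV.{u} G) (f : G →+ ℤ) (B : ℤ)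
    (h : ∀ ω, |f (A.X ω)| ≤ B) (q : ℕ) : ∀ ω, |f ((acc k0 A q).X ω)| ≤ (Kq k0 q : ℤ) * B := by
  induction q with
  | zero =>
    intro ω
    change |f 0| ≤ _
    simp [Kq]
  | succ q ih =>
    intro ω
    change |f ((acc k0 A q).X ω.1 + ∑ j, pw k0 q j • A.X (ω.2 j))| ≤ _
    rw [map_add, map_sum]
    have h1 := ih ω.1
    have h2 : |∑ j, f (pw k0 q j • A.X (ω.2 j))| ≤ ∑ j : Fin k0, (((j : ℕ) : ℤ) ^ q) * B := by
      refine (Finset.abs_sum_le_sum_abs _ _).trans (Finset.sum_le_sum fun j _ => ?_)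
      rw [map_zsmul, smul_eq_mul, abs_mul]
      have h3 : |pw k0 q j| = ((j : ℕ) : ℤ) ^ q := by
        unfold pw
        exact abs_of_nonneg (by positivity)
      rw [h3]
      exact mul_le_mul_of_nonneg_left (h _) (by positivity)
    refine (abs_add_le _ _).trans ((add_le_add h1 h2).trans (le_of_eq ?_))
    unfold Kq
    rw [Finset.sum_range_succ, ← Finset.sum_mul]
    push_cast
    ring

theorem bd_seq {G : Type v} [AddCommGroup G] (k0 : ℕ) (A : RV.{u} G) (f : G →+ ℤ) (B : ℤ)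
    (h : ∀ ω, |f (A.X ω)| ≤ B) (s : ℕ) :
    ∀ ω, |f ((seq k0 A s).X ω)| ≤ (Kq k0 (k0 - 1) : ℤ) ^ s * B := by
  induction s with
  | zero => intro ω; simpa [seq] using h ω
  | succ s ih =>
    intro ω
    have := bd_acc k0 (seq k0 A s) f _ ih (k0 - 1) ω
    rw [pow_succ, mul_comm ((Kq k0 (k0 - 1) : ℤ) ^ s), mul_assoc]
    exact this

theorem ctl_seq {G : Type v} [AddCommGroup G] (k0 : ℕ) {x A : RV.{u} G} {C : ℝ}
    (h : Ctl x A C) (s : ℕ) : Ctl x (seq k0 A s) ((Kq k0 (k0 - 1) : ℝ) ^ s * C) := by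
  induction s with
  | zero => simpa [seq] using h
  | succ s ih =>
    have := ctl_acc k0 ih (k0 - 1)
    rw [pow_succ, mul_comm ((Kq k0 (k0 - 1) : ℝ) ^ s), mul_assoc]
    exact this

theorem seq_map {G : Type v} {G' : Type v'} [AddCommGroup G] [AddCommGroup G'] (k0 : ℕ)
    (A : RV.{u} G) (f : G →+ G') (s : ℕ) :
    Same ((seq k0 A s).map f) (seq k0 (A.map f) s) := by
  induction s with
  | zero => exact Same.refl _
  | succ s ih =>
    have h1 := acc_map k0 (seq k0 A s) f (k0 - 1)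
    have h2 : ∀ q, Same (acc k0 ((seq k0 A s).map f) q) (acc k0 (seq k0 (A.map f) s) q) := by
      have hc : ∀ (n : ℕ) (c : Fin n → ℤ), Same (comb n c ((seq k0 A s).map f))
          (comb n c (seq k0 (A.map f) s)) := by
        intro n
        induction n with
        | zero => intro c; exact (comb_zero c _).trans (comb_zero c _).symm
        | succ n ihn =>
          intro c
          exact (comb_succ n c _).trans (((ih.dil (c 0)).add (ihn _)).trans (comb_succ n c _).symm)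
      intro q
      induction q with
      | zero => exact Same.refl _
      | succ q ihq => exact ihq.add (hc k0 _)
    exact h1.trans (h2 _)

theorem ent_le_seq {G : Type v} [AddCommGroup G] (k0 : ℕ) (hk : 2 ≤ k0) (A : RV.{u} G) (s : ℕ) :
    A.ent ≤ (seq k0 A s).ent := by
  induction s with
  | zero => exact le_rfl
  | succ s ih => exact ih.trans (ent_le_acc k0 hk _ _ (by omega))

theorem ent_box (A : RV.{u} ((Fin m → ℤ) × (Fin m → ℤ))) (B : ℕ)
    (h : ∀ ω i, |(A.X ω).1 i| ≤ (B : ℤ) ∧ |(A.X ω).2 i| ≤ (B : ℤ)) :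
    A.ent ≤ 2 * m * Real.log (2 * B + 1) := by
  classical
  have h1 := H_le_log_card A.nonneg A.one A.X
    ((Fintype.piFinset fun _ : Fin m => Finset.Icc (-(B : ℤ)) B) ×ˢ
      (Fintype.piFinset fun _ : Fin m => Finset.Icc (-(B : ℤ)) B))
    (by
      intro ω _
      rw [Finset.mem_product, Fintype.mem_piFinset, Fintype.mem_piFinset]
      refine ⟨fun i => ?_, fun i => ?_⟩
      · rw [Finset.mem_Icc]; exact abs_le.mp (h ω i).1
      · rw [Finset.mem_Icc]; exact abs_le.mp (h ω i).2)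
  refine h1.trans (le_of_eq ?_)
  rw [Finset.card_product, Fintype.card_piFinset]
  have hc : (Finset.Icc (-(B : ℤ)) B).card = 2 * B + 1 := by
    rw [Int.card_Icc]
    omega
  simp only [Finset.prod_const, Finset.card_univ, Fintype.card_fin, hc]
  push_cast
  rw [← pow_add, Real.log_pow]
  push_cast
  ring

/-- **Integer form of the small doubling theorem.** -/
theorem int_form (k0 S M : ℕ) (hk : 2 ≤ k0) (hS : 1 ≤ S)
    (A : RV.{u} ((Fin m → ℤ) × (Fin m → ℤ)))
    (hM : ∀ ω i, |(A.X ω).1 i| ≤ (M : ℤ) ∧ |(A.X ω).2 i| ≤ (M : ℤ)) :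
    ((k0 : ℝ) - 1) * (A.map (dr m)).ent ≤
      ∑ j : Fin k0, ((A.map (ev m (j : ℕ))).ent +
        (Kq k0 (k0 - 1) : ℝ) ^ S * (2 * (A.map (ev m (j : ℕ))).dbl)) +
      (k0 - 1) * ((2 * m * Real.log (2 * ((Kq k0 (k0 - 1) : ℝ) ^ S * M) + 1)) / S) := by
  have hK1 : 1 ≤ Kq k0 (k0 - 1) := by
    unfold Kq
    have h0 : (0 : ℕ) ∈ range (k0 - 1) := Finset.mem_range.mpr (by omega)
    refine le_trans ?_ (Finset.single_le_sum (f := fun p => ∑ j : Fin k0, (j : ℕ) ^ p)
      (fun _ _ => Nat.zero_le _) h0)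
    simp
    omega
  have hS0 : (0 : ℝ) < S := by exact_mod_cast hS
  have hkR : (2 : ℝ) ≤ k0 := by exact_mod_cast hk
  set L : ℝ := 2 * m * Real.log (2 * ((Kq k0 (k0 - 1) : ℝ) ^ S * M) + 1) with hL
  have hL0 : 0 ≤ L := by
    rw [hL]
    have : 0 ≤ Real.log (2 * ((Kq k0 (k0 - 1) : ℝ) ^ S * M) + 1) :=
      Real.log_nonneg (by
        have : 0 ≤ (Kq k0 (k0 - 1) : ℝ) ^ S * M := by positivity
        linarith)
    positivity
  -- the last entropy
  have hlast : (seq k0 A S).ent ≤ L := by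
    have h1 := ent_box (seq k0 A S) (Kq k0 (k0 - 1) ^ S * M) (by
      intro ω i
      have e1 := bd_seq k0 A ((Pi.evalAddMonoidHom (fun _ : Fin m => ℤ) i).comp
        (AddMonoidHom.fst _ _)) M (fun ω => (hM ω i).1) S ω
      have e2 := bd_seq k0 A ((Pi.evalAddMonoidHom (fun _ : Fin m => ℤ) i).comp
        (AddMonoidHom.snd _ _)) M (fun ω => (hM ω i).2) S ω
      constructor
      · push_cast; exact e1
      · push_cast; exact e2)
    push_cast at h1
    exact h1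
  -- pigeonhole
  obtain ⟨s, hs, hdiff⟩ : ∃ s < S, (seq k0 A (s + 1)).ent - (seq k0 A s).ent ≤ L / S := by
    by_contra hcon
    push Not at hcon
    have h1 : ∑ s ∈ range S, (L / S) < ∑ s ∈ range S,
        ((seq k0 A (s + 1)).ent - (seq k0 A s).ent) :=
      Finset.sum_lt_sum_of_nonempty ⟨0, Finset.mem_range.mpr hS⟩
        (fun s hs => hcon s (Finset.mem_range.mp hs))
    rw [Finset.sum_range_sub (fun s => (seq k0 A s).ent), Finset.sum_const, Finset.card_range,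
      nsmul_eq_mul, mul_div_cancel₀ _ hS0.ne'] at h1
    have h2 := ent_nonneg (seq k0 A 0)
    linarith
  have hv := vand_step k0 hk (seq k0 A s)
  have hd : (A.map (dr m)).ent ≤ ((seq k0 A s).map (dr m)).ent := by
    rw [(seq_map k0 A (dr m) s).ent]
    exact ent_le_seq k0 hk _ s
  have hd2 : ((seq k0 A s).map (dr m)).ent ≤ (seq k0 A s).ent := ent_map_le _ _
  have hev : ∀ j : Fin k0, ((seq k0 A s).map (ev m (j : ℕ))).ent ≤
      (A.map (ev m (j : ℕ))).ent + (Kq k0 (k0 - 1) : ℝ) ^ S * (2 * (A.map (ev m (j : ℕ))).dbl) := by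
    intro j
    have h1 := (ctl_seq k0 (ctl_self (A.map (ev m (j : ℕ)))) s).same
      (seq_map k0 A (ev m (j : ℕ)) s).symm
    refine h1.ent_le.trans (add_le_add le_rfl ?_)
    refine mul_le_mul_of_nonneg_right ?_ (mul_nonneg two_pos.le (dbl_nonneg _))
    exact pow_le_pow_right₀ (by exact_mod_cast hK1) hs.le
  have hsum := Finset.sum_le_sum (s := Finset.univ) fun j (_ : j ∈ Finset.univ) => hev j
  have hseq : (seq k0 A (s + 1)).ent = (acc k0 (seq k0 A s) (k0 - 1)).ent := rfl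
  rw [hseq] at hdiff
  -- combine
  have h5 : ((k0 : ℝ) - 1) * (A.map (dr m)).ent ≤
      (seq k0 A s).ent + (k0 - 2) * ((seq k0 A s).map (dr m)).ent := by
    have e1 : (k0 - 2 : ℝ) * (A.map (dr m)).ent ≤ (k0 - 2) * ((seq k0 A s).map (dr m)).ent :=
      mul_le_mul_of_nonneg_left hd (by linarith)
    linarith
  have h6 : (k0 - 1 : ℝ) * ((acc k0 (seq k0 A s) (k0 - 1)).ent - (seq k0 A s).ent) ≤
      (k0 - 1) * (L / S) := mul_le_mul_of_nonneg_left hdiff (by linarith)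
  linarith

end RV

/-- **Integer form, on a given probability space.** -/
theorem int_form' {Ω : Type u} [Fintype Ω] {p : Ω → ℝ} (hp : ∀ ω, 0 ≤ p ω) (h1 : ∑ ω, p ω = 1)
    {m : ℕ} (k0 S M : ℕ) (hk : 2 ≤ k0) (hS : 1 ≤ S) (a b : Ω → Fin m → ℤ)
    (hM : ∀ ω i, |a ω i| ≤ (M : ℤ) ∧ |b ω i| ≤ (M : ℤ)) :
    ((k0 : ℝ) - 1) * H p b ≤
      ∑ j : Fin k0, (H p (fun ω => a ω + ((j : ℕ) : ℤ) • b ω) +
        (RV.Kq k0 (k0 - 1) : ℝ) ^ S *
          (2 * (H (fun w : Ω × Ω => p w.1 * p w.2)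
            (fun w => (a w.1 + ((j : ℕ) : ℤ) • b w.1) - (a w.2 + ((j : ℕ) : ℤ) • b w.2)) -
            H p (fun ω => a ω + ((j : ℕ) : ℤ) • b ω)))) +
      (k0 - 1) * ((2 * m * Real.log (2 * ((RV.Kq k0 (k0 - 1) : ℝ) ^ S * M) + 1)) / S) := by
  let A : RV.{u} ((Fin m → ℤ) × (Fin m → ℤ)) :=
    { Ω := Ω, fin := inferInstance, p := p, nonneg := hp, one := h1, X := fun ω => (a ω, b ω) }
  have h := RV.int_form k0 S M hk hS A hM
  have e : ∀ j : Fin k0, (A.map (RV.ev m (j : ℕ))).dbl =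
      H (fun w : Ω × Ω => p w.1 * p w.2)
            (fun w => (a w.1 + ((j : ℕ) : ℤ) • b w.1) - (a w.2 + ((j : ℕ) : ℤ) • b w.2)) -
            H p (fun ω => a ω + ((j : ℕ) : ℤ) • b ω) := by
    intro j
    have e1 : (fun w : Ω × Ω => (a w.1 + ((j : ℕ) : ℤ) • b w.1) - (a w.2 + ((j : ℕ) : ℤ) • b w.2)) =
        fun w : Ω × Ω => (a w.1 + ((j : ℕ) : ℤ) • b w.1) +
          (-1 : ℤ) • (a w.2 + ((j : ℕ) : ℤ) • b w.2) := by
      funext w
      rw [neg_one_smul, sub_eq_add_neg]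
    rw [e1]
    rfl
  simp_rw [e] at h
  exact h

end Pool.Agent.H49.STK
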