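import Mathlib
import Pool.Agent.H49.Ent

/-!
# Finite random variables in abelian groups, independent sums, dilates
-/

set_option autoImplicit false

namespace Pool.Agent.H49.STK

open Finset Real
open Pool.Agent.H49.Ent
open scoped BigOperators

universe u v v'

/-- A random variable with finitely many values, with its (finite) probability space. -/
structure RV (G : Type v) : Type (max (u+1) v) where
  Ω : Type u
  fin : Fintype Ω
  p : Ω → ℝ
  nonneg : ∀ ω, 0 ≤ p ω
  one : ∑ ω, p ω = 1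
  X : Ω → G

attribute [instance] RV.fin

namespace RV

variable {G : Type v} {G' : Type v'}

/-- entropy -/
noncomputable def ent (R : RV.{u} G) : ℝ := H R.p R.X

theorem ent_nonneg (R : RV.{u} G) : 0 ≤ R.ent := H_nonneg R.nonneg R.one R.X

/-- image -/
@[reducible] def map (R : RV.{u} G) (f : G → G') : RV.{u} G' where
  Ω := R.Ω
  fin := R.fin
  p := R.p
  nonneg := R.nonneg
  one := R.one
  X := fun ω => f (R.X ω)

/-- independent pair -/
@[reducible] def prod (R : RV.{u} G) (S : RV.{u} G') : RV.{u} (G × G') where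
  Ω := R.Ω × S.Ω
  fin := inferInstance
  p := fun w => R.p w.1 * S.p w.2
  nonneg := fun w => mul_nonneg (R.nonneg _) (S.nonneg _)
  one := by
    rw [Fintype.sum_prod_type]
    simp_rw [← Finset.mul_sum, S.one, mul_one]
    exact R.one
  X := fun w => (R.X w.1, S.X w.2)

/-- same law -/
def Same (R S : RV.{u} G) : Prop := ∀ g, law R.p R.X g = law S.p S.X g

theorem Same.refl (R : RV.{u} G) : Same R R := fun _ => rfl
theorem Same.symm {R S : RV.{u} G} (h : Same R S) : Same S R := fun g => (h g).symm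
theorem Same.trans {R S T : RV.{u} G} (h : Same R S) (h' : Same S T) : Same R T :=
  fun g => (h g).trans (h' g)

theorem Same.ent {R S : RV.{u} G} (h : Same R S) : R.ent = S.ent := by
  classical
  unfold RV.ent
  rw [H_eq_sum_of_subset R.p R.X (F := univ.image R.X ∪ univ.image S.X) subset_union_left,
    H_eq_sum_of_subset S.p S.X (F := univ.image R.X ∪ univ.image S.X) subset_union_right]
  exact Finset.sum_congr rfl fun s _ => by rw [h s]

theorem expect_eq {R S : RV.{u} G} (h : Same R S) (f : G → ℝ) :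
    ∑ ω, R.p ω * f (R.X ω) = ∑ ω, S.p ω * f (S.X ω) := by
  classical
  rw [sum_mul_eq_sum_image, sum_mul_eq_sum_image]
  have h1 : ∑ s ∈ univ.image R.X, law R.p R.X s * f s =
      ∑ s ∈ univ.image R.X ∪ univ.image S.X, law R.p R.X s * f s := by
    refine Finset.sum_subset subset_union_left fun s _ hs => ?_
    rw [law_eq_zero_of_notMem _ _ hs, zero_mul]
  have h2 : ∑ s ∈ univ.image S.X, law S.p S.X s * f s =
      ∑ s ∈ univ.image R.X ∪ univ.image S.X, law S.p S.X s * f s := by
    refine Finset.sum_subset subset_union_right fun s _ hs => ?_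
    rw [law_eq_zero_of_notMem _ _ hs, zero_mul]
  rw [h1, h2]
  exact Finset.sum_congr rfl fun s _ => by rw [h s]

theorem law_map (R : RV.{u} G) (f : G → G') (g' : G') :
    law (R.map f).p (R.map f).X g' = ∑ ω, R.p ω * (open Classical in if f (R.X ω) = g' then 1 else 0) := by
  classical
  unfold law map
  refine Finset.sum_congr rfl fun ω _ => ?_
  by_cases h : f (R.X ω) = g' <;> simp [h]

theorem Same.map {R S : RV.{u} G} (h : Same R S) (f : G → G') : Same (R.map f) (S.map f) := by
  classical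
  intro g'
  rw [law_map, law_map]
  exact expect_eq h (fun g => if f g = g' then (1 : ℝ) else 0)

theorem law_prod (R : RV.{u} G) (S : RV.{u} G') (g : G × G') :
    law (R.prod S).p (R.prod S).X g = law R.p R.X g.1 * law S.p S.X g.2 := by
  classical
  unfold law
  rw [Finset.sum_mul_sum]
  change ∑ w : R.Ω × S.Ω, _ = _
  rw [Fintype.sum_prod_type]
  refine Finset.sum_congr rfl fun a _ => Finset.sum_congr rfl fun b _ => ?_
  by_cases h1 : R.X a = g.1 <;> by_cases h2 : S.X b = g.2
  · rw [if_pos (Prod.ext h1 h2), if_pos h1, if_pos h2]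
  · rw [if_neg (fun h => h2 (Prod.ext_iff.mp h).2), if_neg h2, mul_zero]
  · rw [if_neg (fun h => h1 (Prod.ext_iff.mp h).1), if_neg h1, zero_mul]
  · rw [if_neg (fun h => h1 (Prod.ext_iff.mp h).1), if_neg h1, zero_mul]

theorem Same.prod {R R' : RV.{u} G} {S S' : RV.{u} G'} (h : Same R R') (h' : Same S S') :
    Same (R.prod S) (R'.prod S') := by
  intro g
  rw [law_prod, law_prod, h, h']

/-- A bijection of the probability spaces gives the same law. -/
theorem same_of_equiv {R S : RV.{u} G} (e : R.Ω ≃ S.Ω) (hp : ∀ ω, R.p ω = S.p (e ω))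
    (hX : ∀ ω, R.X ω = S.X (e ω)) : Same R S := by
  classical
  intro g
  unfold law
  rw [← e.sum_comp]
  exact Finset.sum_congr rfl fun ω _ => by rw [hp, hX]

theorem ent_prod (R : RV.{u} G) (S : RV.{u} G') : (R.prod S).ent = R.ent + S.ent := by
  classical
  unfold ent H
  have hlaw : ∀ w : R.Ω × S.Ω, law (R.prod S).p (R.prod S).X ((R.prod S).X w) =
      law R.p R.X (R.X w.1) * law S.p S.X (S.X w.2) := fun w => law_prod R S _
  have : ∀ w : R.Ω × S.Ω, (R.prod S).p w * Real.log (law (R.prod S).p (R.prod S).X ((R.prod S).X w))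
      = S.p w.2 * (R.p w.1 * Real.log (law R.p R.X (R.X w.1))) +
        R.p w.1 * (S.p w.2 * Real.log (law S.p S.X (S.X w.2))) := by
    intro w
    rw [hlaw]
    change R.p w.1 * S.p w.2 * _ = _
    rcases (R.nonneg w.1).eq_or_lt with h | h
    · rw [← h]; ring
    rcases (S.nonneg w.2).eq_or_lt with h' | h'
    · rw [← h']; ring
    rw [Real.log_mul (law_pos R.nonneg _ h).ne' (law_pos S.nonneg _ h').ne']
    ring
  change -∑ w : R.Ω × S.Ω, _ = _
  rw [Finset.sum_congr rfl fun w _ => this w, Finset.sum_add_distrib]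
  have e1 : ∑ w : R.Ω × S.Ω, S.p w.2 * (R.p w.1 * Real.log (law R.p R.X (R.X w.1))) =
      ∑ a, R.p a * Real.log (law R.p R.X (R.X a)) := by
    rw [Fintype.sum_prod_type]
    refine Finset.sum_congr rfl fun a _ => ?_
    change ∑ b, S.p b * (R.p a * Real.log (law R.p R.X (R.X a))) = _
    rw [← Finset.sum_mul, S.one, one_mul]
  have e2 : ∑ w : R.Ω × S.Ω, R.p w.1 * (S.p w.2 * Real.log (law S.p S.X (S.X w.2))) =
      ∑ b, S.p b * Real.log (law S.p S.X (S.X b)) := by
    rw [Fintype.sum_prod_type]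
    change ∑ a, ∑ b, R.p a * (S.p b * Real.log (law S.p S.X (S.X b))) = _
    simp_rw [← Finset.mul_sum]
    rw [← Finset.sum_mul, R.one, one_mul]
  rw [e1, e2]
  ring

theorem sum_prod_fst (R : RV.{u} G) (S : RV.{u} G') (f : R.Ω → ℝ) :
    ∑ w : R.Ω × S.Ω, R.p w.1 * S.p w.2 * f w.1 = ∑ a, R.p a * f a := by
  rw [Fintype.sum_prod_type]
  refine Finset.sum_congr rfl fun a _ => ?_
  change ∑ b, R.p a * S.p b * f a = _
  rw [← Finset.sum_mul, ← Finset.mul_sum, S.one, mul_one]

theorem same_fst (R : RV.{u} G) (S : RV.{u} G') : Same ((R.prod S).map Prod.fst) R := by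
  classical
  intro g
  rw [law_map]
  refine (sum_prod_fst R S (fun a => if R.X a = g then (1 : ℝ) else 0)).trans ?_
  unfold law
  refine Finset.sum_congr rfl fun a _ => ?_
  by_cases h : R.X a = g <;> simp [h]

/-- `ent` of a function of an independent pair depending on the first coordinate -/
theorem ent_fst (R : RV.{u} G) (S : RV.{u} G') : ((R.prod S).map Prod.fst).ent = R.ent :=
  (same_fst R S).ent

theorem same_swap (R : RV.{u} G) (S : RV.{u} G') :
    Same ((R.prod S).map (fun g => (g.2, g.1))) (S.prod R) := by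
  exact same_of_equiv (Equiv.prodComm _ _) (fun _ => mul_comm _ _) (fun _ => rfl)

theorem ent_snd (R : RV.{u} G) (S : RV.{u} G') : ((R.prod S).map Prod.snd).ent = S.ent := by
  have h := (same_swap R S).map Prod.fst
  have h1 := h.ent
  rw [ent_fst] at h1
  exact h1

/-! ### Additive structure -/

theorem ent_map_injective (R : RV.{u} G) {f : G → G'} (hf : Function.Injective f) :
    (R.map f).ent = R.ent := H_comp_injective R.nonneg R.X hf

theorem ent_map_le (R : RV.{u} G) (f : G → G') : (R.map f).ent ≤ R.ent :=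
  H_comp_le R.nonneg R.X f

section Add

variable [AddCommGroup G] [AddCommGroup G']

/-- independent sum -/
@[reducible] def add (R S : RV.{u} G) : RV.{u} G := (R.prod S).map (fun g => g.1 + g.2)

/-- integer dilate -/
@[reducible] def dil (c : ℤ) (R : RV.{u} G) : RV.{u} G := R.map (fun g => c • g)

theorem Same.add {R R' S S' : RV.{u} G} (h : Same R R') (h' : Same S S') :
    Same (R.add S) (R'.add S') := (h.prod h').map _

theorem Same.dil {R R' : RV.{u} G} (h : Same R R') (c : ℤ) : Same (dil c R) (dil c R') := h.map _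

theorem add_comm' (R S : RV.{u} G) : Same (R.add S) (S.add R) := by
  refine same_of_equiv (Equiv.prodComm _ _) (fun w => mul_comm _ _) (fun w => add_comm _ _)

theorem add_assoc' (R S T : RV.{u} G) : Same ((R.add S).add T) (R.add (S.add T)) := by
  refine same_of_equiv (Equiv.prodAssoc _ _ _) (fun w => mul_assoc _ _ _)
    (fun w => add_assoc _ _ _)

theorem add_left_comm' (R S T : RV.{u} G) : Same (R.add (S.add T)) (S.add (R.add T)) :=
  (add_assoc' R S T).symm.trans (((add_comm' R S).add (Same.refl T)).trans (add_assoc' S R T))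

theorem map_add' (R S : RV.{u} G) (f : G →+ G') :
    Same ((R.add S).map f) ((R.map f).add (S.map f)) :=
  same_of_equiv (Equiv.refl _) (fun _ => rfl) (fun _ => map_add f _ _)

theorem dil_add' (R S : RV.{u} G) (c : ℤ) : Same (dil c (R.add S)) ((dil c R).add (dil c S)) :=
  same_of_equiv (Equiv.refl _) (fun _ => rfl) (fun _ => smul_add c _ _)

theorem dil_dil' (R : RV.{u} G) (c d : ℤ) : Same (dil c (dil d R)) (dil (c * d) R) :=
  same_of_equiv (Equiv.refl _) (fun _ => rfl) (fun _ => (mul_smul c d _).symm)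

theorem dil_one' (R : RV.{u} G) : Same (dil 1 R) R :=
  same_of_equiv (Equiv.refl _) (fun _ => rfl) (fun _ => one_smul ℤ _)

theorem ent_le_add_left (R S : RV.{u} G) : R.ent ≤ (R.add S).ent := by
  have h := submod (R.prod S).nonneg (X := (R.prod S).X)
    (Y := fun w : R.Ω × S.Ω => (S.X w.2, R.X w.1 + S.X w.2)) (Z := fun w : R.Ω × S.Ω => S.X w.2)
    (W := (R.prod S).X)
    (fun ω ω' _ _ h => (Prod.ext_iff.mp h).2) (fun ω ω' _ _ h => (Prod.ext_iff.mp h).1)
    (fun ω ω' _ _ h => (Prod.ext_iff.mp h).1)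
  have h2 := subadd (R.prod S).nonneg (R.prod S).one (X := fun w : R.Ω × S.Ω => S.X w.2)
    (Y := fun w : R.Ω × S.Ω => R.X w.1 + S.X w.2)
    (W := fun w : R.Ω × S.Ω => (S.X w.2, R.X w.1 + S.X w.2)) (fun _ _ _ _ h => h)
  have h3 : H (R.prod S).p (R.prod S).X ≤ H (R.prod S).p
      (fun w : R.Ω × S.Ω => (S.X w.2, R.X w.1 + S.X w.2)) := by
    refine H_mono (R.prod S).nonneg ?_
    intro ω ω' _ _ h
    have h1 := (Prod.ext_iff.mp h).1
    have h2 := (Prod.ext_iff.mp h).2
    dsimp only at h1 h2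
    refine Prod.ext ?_ h1
    rw [h1] at h2
    exact add_right_cancel h2
  have e1 : H (R.prod S).p (R.prod S).X = R.ent + S.ent := ent_prod R S
  have e2 : H (R.prod S).p (fun w : R.Ω × S.Ω => S.X w.2) = S.ent := ent_snd R S
  have e3 : H (R.prod S).p (fun w : R.Ω × S.Ω => R.X w.1 + S.X w.2) = (R.add S).ent := rfl
  linarith

theorem ent_le_add_right (R S : RV.{u} G) : S.ent ≤ (R.add S).ent := by
  rw [(add_comm' R S).ent]
  exact ent_le_add_left S R

theorem ent_neg (R : RV.{u} G) : (dil (-1) R).ent = R.ent := by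
  refine ent_map_injective R (f := fun g => (-1 : ℤ) • g) ?_
  intro a b h
  simpa using h

/-- Kaimanovich Vershik -/
theorem kv (R S T : RV.{u} G) : (R.add (S.add T)).ent + R.ent ≤ (R.add S).ent + (R.add T).ent := by
  set P : RV.{u} (G × (G × G)) := R.prod (S.prod T) with hP
  have h := submod P.nonneg (X := fun w : R.Ω × (S.Ω × T.Ω) => (R.X w.1 + S.X w.2.1, T.X w.2.2))
    (Y := fun w : R.Ω × (S.Ω × T.Ω) => (R.X w.1 + T.X w.2.2, S.X w.2.1))
    (Z := fun w : R.Ω × (S.Ω × T.Ω) => R.X w.1 + (S.X w.2.1 + T.X w.2.2))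
    (W := P.X)
    (by
      intro ω ω' _ _ h
      have h1 := (Prod.ext_iff.mp h).1
      have h2 := (Prod.ext_iff.mp h).2
      dsimp only at h1 h2 ⊢
      rw [← add_assoc, ← add_assoc, h1, h2])
    (by
      intro ω ω' _ _ h
      have h1 := (Prod.ext_iff.mp h).1
      have h2 := (Prod.ext_iff.mp h).2
      dsimp only at h1 h2 ⊢
      rw [add_left_comm, add_left_comm (R.X ω'.1), h1, h2])
    (by
      intro ω ω' _ _ h
      simp only [Prod.mk.injEq] at h
      obtain ⟨⟨h1, h2⟩, ⟨h3, h4⟩⟩ := h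
      change (R.X ω.1, (S.X ω.2.1, T.X ω.2.2)) = (R.X ω'.1, (S.X ω'.2.1, T.X ω'.2.2))
      rw [h4] at h1
      rw [h4, h2, add_right_cancel h1])
  have e1 : H P.p P.X = R.ent + (S.ent + T.ent) := by
    have h1 := ent_prod R (S.prod T)
    have h2 := ent_prod S T
    rw [h2] at h1
    exact h1
  have e2 : H P.p (fun w : R.Ω × (S.Ω × T.Ω) => (R.X w.1 + S.X w.2.1, T.X w.2.2)) =
      (R.add S).ent + T.ent := by
    rw [← ent_prod]
    refine Same.ent (R := P.map (fun g => (g.1 + g.2.1, g.2.2))) (S := (R.add S).prod T) ?_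
    exact same_of_equiv (Equiv.prodAssoc _ _ _).symm (fun w => (mul_assoc _ _ _).symm)
      (fun w => rfl)
  have e3 : H P.p (fun w : R.Ω × (S.Ω × T.Ω) => (R.X w.1 + T.X w.2.2, S.X w.2.1)) =
      (R.add T).ent + S.ent := by
    rw [← ent_prod]
    refine Same.ent (R := P.map (fun g => (g.1 + g.2.2, g.2.1))) (S := (R.add T).prod S) ?_
    refine same_of_equiv (((Equiv.refl R.Ω).prodCongr (Equiv.prodComm S.Ω T.Ω)).trans
      (Equiv.prodAssoc R.Ω T.Ω S.Ω).symm) (fun w => ?_) (fun w => rfl)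
    change R.p w.1 * (S.p w.2.1 * T.p w.2.2) = R.p w.1 * T.p w.2.2 * S.p w.2.1
    ring
  have e4 : H P.p (fun w : R.Ω × (S.Ω × T.Ω) => R.X w.1 + (S.X w.2.1 + T.X w.2.2)) =
      (R.add (S.add T)).ent := rfl
  linarith

/-- Ruzsa triangle inequality, with `B` independent of the pair `(A, C)`. -/
theorem tri (AC : RV.{u} (G × G)) (B : RV.{u} G) :
    (AC.map (fun g => g.1 - g.2)).ent + B.ent ≤
      ((AC.prod B).map (fun g => g.1.1 - g.2)).ent +
        ((AC.prod B).map (fun g => g.2 - g.1.2)).ent := by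
  set P : RV.{u} ((G × G) × G) := AC.prod B with hP
  have h := submod P.nonneg
    (X := fun w : AC.Ω × B.Ω => ((AC.X w.1).1 - B.X w.2, B.X w.2 - (AC.X w.1).2))
    (Y := fun w : AC.Ω × B.Ω => AC.X w.1)
    (Z := fun w : AC.Ω × B.Ω => (AC.X w.1).1 - (AC.X w.1).2)
    (W := P.X)
    (by
      intro ω ω' _ _ h
      simp only [Prod.mk.injEq] at h
      dsimp only
      rw [← sub_add_sub_cancel (AC.X ω.1).1 (B.X ω.2) (AC.X ω.1).2,
        ← sub_add_sub_cancel (AC.X ω'.1).1 (B.X ω'.2) (AC.X ω'.1).2, h.1, h.2])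
    (by
      intro ω ω' _ _ h
      dsimp only at h ⊢
      rw [h])
    (by
      intro ω ω' _ _ h
      simp only [Prod.mk.injEq] at h
      obtain ⟨⟨h1, h2⟩, h3⟩ := h
      change (AC.X ω.1, B.X ω.2) = (AC.X ω'.1, B.X ω'.2)
      rw [h3] at h1 ⊢
      rw [sub_right_inj] at h1
      rw [h1])
  have e1 : H P.p P.X = AC.ent + B.ent := ent_prod AC B
  have e2 : H P.p (fun w : AC.Ω × B.Ω => AC.X w.1) = AC.ent := ent_fst AC B
  have e3 : H P.p (fun w : AC.Ω × B.Ω => (AC.X w.1).1 - (AC.X w.1).2) =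
      (AC.map (fun g => g.1 - g.2)).ent := by
    have h1 : Same ((AC.prod B).map Prod.fst) AC := same_fst AC B
    exact (h1.map (fun g => g.1 - g.2)).ent
  have e4 := subadd P.nonneg P.one (X := fun w : AC.Ω × B.Ω => (AC.X w.1).1 - B.X w.2)
    (Y := fun w : AC.Ω × B.Ω => B.X w.2 - (AC.X w.1).2)
    (W := fun w : AC.Ω × B.Ω => ((AC.X w.1).1 - B.X w.2, B.X w.2 - (AC.X w.1).2))
    (fun _ _ _ _ h => h)
  have e5 : H P.p (fun w : AC.Ω × B.Ω => (AC.X w.1).1 - B.X w.2) =
    ((AC.prod B).map (fun g => g.1.1 - g.2)).ent := rfl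
  have e6 : H P.p (fun w : AC.Ω × B.Ω => B.X w.2 - (AC.X w.1).2) =
    ((AC.prod B).map (fun g => g.2 - g.1.2)).ent := rfl
  linarith

end Add

end RV

end Pool.Agent.H49.STK
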