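import Pool.Agent.H49.STK.Dil

/-!
# The Vandermonde step
-/

set_option autoImplicit false

namespace Pool.Agent.H49.STK

open Finset Real
open Pool.Agent.H49.Ent
open scoped BigOperators

universe u v v'

namespace RV

/-- the coefficients of the `q`-th power sum -/
def pw (k0 q : ℕ) : Fin k0 → ℤ := fun j => ((j : ℕ) : ℤ) ^ q

/-- independent sum of the first `q` power sums `z_0, …, z_{q-1}` -/
def acc {G : Type v} [AddCommGroup G] (k0 : ℕ) (A : RV.{u} G) : ℕ → RV.{u} G
  | 0 => zero G
  | q + 1 => (acc k0 A q).add (comb k0 (pw k0 q) A)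

/-- `∑_{p < q} ∑_{j < k0} j^p` -/
def Kq (k0 : ℕ) (q : ℕ) : ℕ := ∑ p ∈ range q, ∑ j : Fin k0, (j : ℕ) ^ p

section

variable {G : Type v} {G' : Type v'} [AddCommGroup G] [AddCommGroup G']

theorem sum_abs_pw (k0 q : ℕ) : (∑ j, |((pw k0 q j : ℤ) : ℝ)|) = ((∑ j : Fin k0, (j : ℕ) ^ q : ℕ) : ℝ) := by
  push_cast
  refine Finset.sum_congr rfl fun j _ => ?_
  unfold pw
  push_cast
  exact abs_of_nonneg (by positivity)

theorem ctl_acc (k0 : ℕ) {x A : RV.{u} G} {C : ℝ} (h : Ctl x A C) (q : ℕ) :
    Ctl x (acc k0 A q) ((Kq k0 q : ℝ) * C) := by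
  induction q with
  | zero =>
    have := ctl_zero x
    simpa [Kq, acc] using this
  | succ q ih =>
    have h2 := ih.add (ctl_comb k0 h (pw k0 q))
    rw [sum_abs_pw] at h2
    have e : (Kq k0 (q + 1) : ℝ) * C = (Kq k0 q : ℝ) * C + ((∑ j : Fin k0, (j : ℕ) ^ q : ℕ) : ℝ) * C := by
      unfold Kq
      rw [Finset.sum_range_succ]
      push_cast
      ring
    rw [e]
    exact h2

theorem ent_comb_le_acc (k0 : ℕ) (A : RV.{u} G) (q q' : ℕ) (h : q < q') :
    (comb k0 (pw k0 q) A).ent ≤ (acc k0 A q').ent := by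
  induction q' with
  | zero => exact absurd h (Nat.not_lt_zero _)
  | succ q' ih =>
    rcases Nat.lt_succ_iff_lt_or_eq.mp h with h1 | h1
    · exact (ih h1).trans (ent_le_add_left _ _)
    · subst h1
      exact ent_le_add_right _ _

theorem ent_le_comb_pw (k0 : ℕ) (hk : 2 ≤ k0) (A : RV.{u} G) (q : ℕ) :
    A.ent ≤ (comb k0 (pw k0 q) A).ent := by
  refine ent_le_comb k0 A (pw k0 q) ⟨1, hk⟩ ?_
  unfold pw
  simp

theorem ent_le_acc (k0 : ℕ) (hk : 2 ≤ k0) (A : RV.{u} G) (q : ℕ) (hq : 0 < q) :
    A.ent ≤ (acc k0 A q).ent :=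
  (ent_le_comb_pw k0 hk A 0).trans (ent_comb_le_acc k0 A 0 q hq)

theorem acc_map (k0 : ℕ) (A : RV.{u} G) (f : G →+ G') (q : ℕ) :
    Same ((acc k0 A q).map f) (acc k0 (A.map f) q) := by
  induction q with
  | zero =>
    refine same_of_equiv (Equiv.refl _) (fun _ => rfl) fun w => ?_
    exact map_zero f
  | succ q ih =>
    exact (map_add' _ _ f).trans (ih.add (comb_map k0 _ A f))

end

/-! ### The Vandermonde step -/

theorem vander {k0 m : ℕ} (d d' : Fin k0 → Fin m → ℤ)
    (h : ∀ q < k0, ∑ j, pw k0 q j • d j = ∑ j, pw k0 q j • d' j) : d = d' := by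
  have hdet : (Matrix.vandermonde (fun j : Fin k0 => ((j : ℕ) : ℤ))).det ≠ 0 := by
    rw [Matrix.det_vandermonde_ne_zero_iff]
    intro a b hab
    have : ((a : ℕ) : ℤ) = ((b : ℕ) : ℤ) := hab
    exact Fin.ext (by exact_mod_cast this)
  funext j i
  have h0 : (fun j => d j i - d' j i) = 0 := by
    refine Matrix.eq_zero_of_vecMul_eq_zero hdet ?_
    funext q
    have h1 := congrFun (h q q.2) i
    simp only [Finset.sum_apply, Pi.smul_apply, smul_eq_mul, pw] at h1
    simp only [Matrix.vecMul, dotProduct, Matrix.vandermonde_apply, Pi.zero_apply, sub_mul,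
      Finset.sum_sub_distrib]
    rw [sub_eq_zero]
    convert h1 using 2 <;> ring
  have := congrFun h0 j
  simpa [sub_eq_zero] using this

variable {m : ℕ}

/-- product law on `Fin n → Ω`: entropy of the whole sequence -/
theorem ent_pi {G : Type v} (A : RV.{u} G) (n : ℕ) :
    H (fun w : Fin n → A.Ω => ∏ j, A.p (w j)) (fun w => fun j => A.X (w j)) = n * A.ent := by
  classical
  induction n with
  | zero =>
    have : H (fun w : Fin 0 → A.Ω => ∏ j, A.p (w j)) (fun w => fun j => A.X (w j)) =
        H (fun w : Fin 0 → A.Ω => ∏ j, A.p (w j)) (fun _ => (fun j : Fin 0 => j.elim0 : Fin 0 → G)) := by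
      congr 1
      funext w j
      exact j.elim0
    rw [this, H_const]
    · simp
    · simp
  | succ n ih =>
    let Q : RV.{u} (Fin n → G) :=
      { Ω := Fin n → A.Ω
        fin := inferInstance
        p := fun w => ∏ j, A.p (w j)
        nonneg := fun w => Finset.prod_nonneg fun j _ => A.nonneg _
        one := by
          rw [← Fintype.piFinset_univ, Finset.sum_prod_piFinset univ (fun _ ω => A.p ω)]
          simp [A.one]
        X := fun w j => A.X (w j) }
    let Q' : RV.{u} (Fin (n + 1) → G) :=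
      { Ω := Fin (n + 1) → A.Ω
        fin := inferInstance
        p := fun w => ∏ j, A.p (w j)
        nonneg := fun w => Finset.prod_nonneg fun j _ => A.nonneg _
        one := by
          rw [← Fintype.piFinset_univ, Finset.sum_prod_piFinset univ (fun _ ω => A.p ω)]
          simp [A.one]
        X := fun w j => A.X (w j) }
    have hs : Same Q' ((A.prod Q).map (fun g => (Fin.cons g.1 g.2 : Fin (n + 1) → G))) := by
      refine same_of_equiv (Fin.consEquiv (fun _ => A.Ω)).symm (fun w => ?_) fun w => ?_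
      · change ∏ j, A.p (w j) = A.p (w 0) * ∏ j : Fin n, A.p (w j.succ)
        rw [Fin.prod_univ_succ]
      · change (fun j => A.X (w j)) = Fin.cons (A.X (w 0)) (fun j => A.X (w (Fin.succ j)))
        funext j
        refine Fin.cases ?_ (fun i => ?_) j
        · rfl
        · rfl
    have h1 := hs.ent
    rw [ent_map_injective (A.prod Q) (f := fun g => (Fin.cons g.1 g.2 : Fin (n + 1) → G)) (by
      intro a b hab
      have h0 := congrFun hab 0
      have h2 : a.2 = b.2 := by
        funext j
        have := congrFun hab j.succ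
        simpa using this
      exact Prod.ext (by simpa using h0) h2), ent_prod] at h1
    have h2 : Q.ent = n * A.ent := ih
    rw [h2] at h1
    change Q'.ent = _
    rw [h1]
    push_cast
    ring

/-- subadditivity over a finite family -/
theorem H_pi_le {Ω : Type*} [Fintype Ω] {p : Ω → ℝ} (hp : ∀ ω, 0 ≤ p ω) (h1 : ∑ ω, p ω = 1)
    {S : Type*} (n : ℕ) (e : Fin n → Ω → S) :
    H p (fun ω => fun j => e j ω) ≤ ∑ j, H p (e j) := by
  induction n with
  | zero =>
    have : H p (fun ω => fun j : Fin 0 => e j ω) =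
        H p (fun _ => (fun j : Fin 0 => j.elim0 : Fin 0 → S)) := by
      congr 1
      funext w j
      exact j.elim0
    rw [this, H_const h1]
    simp
  | succ n ih =>
    rw [Fin.sum_univ_succ]
    refine (subadd hp h1 (X := e 0) (Y := fun ω => fun j : Fin n => e j.succ ω)
      (W := fun ω => fun j => e j ω) ?_).trans (add_le_add le_rfl (ih _))
    intro ω ω' _ _ h
    have h2 := (Prod.ext_iff.mp h).1
    have h3 := (Prod.ext_iff.mp h).2
    funext j
    refine Fin.cases h2 (fun i => congrFun h3 i) j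

/-- evaluation at time `j` -/
def ev (m : ℕ) (j : ℤ) : (Fin m → ℤ) × (Fin m → ℤ) →+ (Fin m → ℤ) where
  toFun := fun l => l.1 + j • l.2
  map_zero' := by simp
  map_add' := by
    intro a b
    simp only [Prod.fst_add, Prod.snd_add, smul_add]
    abel

/-- direction -/
def dr (m : ℕ) : (Fin m → ℤ) × (Fin m → ℤ) →+ (Fin m → ℤ) := AddMonoidHom.snd _ _

/-- **Vandermonde step** -/
theorem vand_step (k0 : ℕ) (hk : 2 ≤ k0) (A : RV.{u} ((Fin m → ℤ) × (Fin m → ℤ))) :
    (k0 : ℝ) * A.ent + (k0 - 2) * (A.map (dr m)).ent ≤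
      ∑ j : Fin k0, (A.map (ev m (j : ℕ))).ent + (k0 - 1) * (acc k0 A (k0 - 1)).ent := by
  classical
  set P : (Fin k0 → A.Ω) → ℝ := fun w => ∏ j, A.p (w j) with hP
  have hPn : ∀ w, 0 ≤ P w := fun w => Finset.prod_nonneg fun j _ => A.nonneg _
  have hP1 : ∑ w, P w = 1 := (comb k0 (pw k0 0) A).one
  set z : ℕ → (Fin k0 → A.Ω) → (Fin m → ℤ) × (Fin m → ℤ) :=
    fun q w => ∑ j, pw k0 q j • A.X (w j) with hz
  set e : Fin k0 → (Fin k0 → A.Ω) → (Fin m → ℤ) := fun j w => ev m (j : ℕ) (A.X (w j)) with he
  -- entropies of the pieces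
  have hzH : ∀ q, H P (z q) = (comb k0 (pw k0 q) A).ent := fun q => rfl
  have hdzH : ∀ q, H P (fun w => dr m (z q w)) = ((comb k0 (pw k0 q) A).map (dr m)).ent :=
    fun q => rfl
  have heH : ∀ j, H P (e j) = (A.map (ev m (j : ℕ))).ent := by
    intro j
    refine H_eq_of_marginal (q := P) (p := A.p) (fun w => w j) (fun ω => ?_)
      (fun ω => ev m (j : ℕ) (A.X ω))
    -- marginal of a product law
    have h1 : ∀ w : Fin k0 → A.Ω, (if w j = ω then P w else 0) =
        ∏ i, (if i = j then (if w i = ω then A.p (w i) else 0) else A.p (w i)) := by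
      intro w
      by_cases hw : w j = ω
      · rw [if_pos hw]
        refine Finset.prod_congr rfl fun i _ => ?_
        by_cases hi : i = j
        · subst hi; simp [hw]
        · simp [hi]
      · rw [if_neg hw]
        symm
        refine Finset.prod_eq_zero (Finset.mem_univ j) ?_
        simp [hw]
    have h2 : ∑ w : Fin k0 → A.Ω, (if w j = ω then P w else 0) = A.p ω := by
      rw [Finset.sum_congr rfl fun w _ => h1 w]
      rw [← Fintype.piFinset_univ, Finset.sum_prod_piFinset univ
        (fun i ω' => if i = j then (if ω' = ω then A.p ω' else 0) else A.p ω')]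
      rw [Finset.prod_eq_single j]
      · simp
      · intro b _ hb
        simp [hb, A.one]
      · intro h
        exact absurd (Finset.mem_univ _) h
    convert h2
  -- the key linear relation
  have hrel : ∀ q w, dr m (z (q + 1) w) = ∑ j, pw k0 q j • e j w - (z q w).1 := by
    intro q w
    have h1 : ∀ j, pw k0 (q + 1) j • (A.X (w j)).2 =
        pw k0 q j • e j w - pw k0 q j • (A.X (w j)).1 := by
      intro j
      change ((j : ℕ) : ℤ) ^ (q + 1) • (A.X (w j)).2 = ((j : ℕ) : ℤ) ^ q •
        ((A.X (w j)).1 + ((j : ℕ) : ℤ) • (A.X (w j)).2) - ((j : ℕ) : ℤ) ^ q • (A.X (w j)).1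
      rw [smul_add, smul_smul, pow_succ]
      abel
    change (∑ j, pw k0 (q + 1) j • A.X (w j)).2 = _ - (∑ j, pw k0 q j • A.X (w j)).1
    rw [Prod.snd_sum, Prod.fst_sum, ← Finset.sum_sub_distrib]
    exact Finset.sum_congr rfl fun j _ => h1 j
  -- chain of variables
  have hchain : ∀ q : ℕ, H P (fun w => ((fun j => e j w), fun i : Fin (q + 1) => z i w)) ≤
      H P (fun w => fun j => e j w) + H P (z 0) +
        ∑ i ∈ range q, (H P (z (i + 1)) - H P (fun w => dr m (z (i + 1) w))) := by
    intro q
    induction q with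
    | zero =>
      simp only [Finset.range_zero, Finset.sum_empty, add_zero]
      refine subadd hPn hP1 ?_
      intro w w' _ _ h
      have h1 := (Prod.ext_iff.mp h).1
      have h2 := (Prod.ext_iff.mp h).2
      refine Prod.ext h1 ?_
      funext i
      have hi : (i : ℕ) = 0 := by omega
      dsimp only
      rw [hi]
      exact h2
    | succ q ih =>
      rw [Finset.sum_range_succ]
      have h := submod hPn (X := fun w => ((fun j => e j w), fun i : Fin (q + 1) => z i w))
        (Y := z (q + 1)) (Z := fun w => dr m (z (q + 1) w))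
        (W := fun w => ((fun j => e j w), fun i : Fin (q + 1 + 1) => z i w))
        (by
          intro w w' _ _ h
          have h1 := (Prod.ext_iff.mp h).1
          have h2 := (Prod.ext_iff.mp h).2
          dsimp only at h1 h2 ⊢
          rw [hrel, hrel]
          have h3 : z q w = z q w' := congrFun h2 ⟨q, Nat.lt_succ_self q⟩
          have h4 : ∀ j, e j w = e j w' := fun j => congrFun h1 j
          rw [h3]
          simp_rw [h4])
        (by
          intro w w' _ _ h
          dsimp only at h ⊢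
          rw [h])
        (by
          intro w w' _ _ h
          simp only [Prod.mk.injEq] at h
          obtain ⟨⟨h1, h2⟩, h3⟩ := h
          refine Prod.ext h1 ?_
          funext i
          dsimp only
          rcases Nat.lt_succ_iff_lt_or_eq.mp i.2 with h4 | h4
          · exact congrFun h2 ⟨i, h4⟩
          · rw [h4]
            exact h3)
      linarith
  -- everything is determined
  have hall : H P (fun w => fun j => A.X (w j)) ≤
      H P (fun w => ((fun j => e j w), fun i : Fin (k0 - 2 + 1) => z i w)) := by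
    refine H_mono hPn ?_
    intro w w' _ _ h
    have h1 := (Prod.ext_iff.mp h).1
    have h2 := (Prod.ext_iff.mp h).2
    dsimp only at h1 h2
    have hzq : ∀ q < k0 - 1, z q w = z q w' := fun q hq => congrFun h2 ⟨q, by omega⟩
    have hej : ∀ j, e j w = e j w' := fun j => congrFun h1 j
    have hd : (fun j => (A.X (w j)).2) = fun j => (A.X (w' j)).2 := by
      refine vander _ _ fun q hq => ?_
      have e1 : ∀ w, ∑ j, pw k0 q j • (A.X (w j)).2 = dr m (z q w) := by
        intro w
        change _ = (∑ j, pw k0 q j • A.X (w j)).2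
        rw [Prod.snd_sum]
        rfl
      rw [e1, e1]
      rcases Nat.eq_zero_or_pos q with h0 | h0
      · subst h0
        rw [hzq 0 (by omega)]
      · obtain ⟨q', rfl⟩ := Nat.exists_eq_succ_of_ne_zero h0.ne'
        change dr m (z (q' + 1) w) = dr m (z (q' + 1) w')
        rw [hrel, hrel, hzq q' (by omega)]
        simp_rw [hej]
    funext j
    have hdj : (A.X (w j)).2 = (A.X (w' j)).2 := congrFun hd j
    refine Prod.ext ?_ hdj
    have h3 : (A.X (w j)).1 + ((j : ℕ) : ℤ) • (A.X (w j)).2 =
      (A.X (w' j)).1 + ((j : ℕ) : ℤ) • (A.X (w' j)).2 := hej j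
    rw [hdj] at h3
    exact add_right_cancel h3
  have hpi := ent_pi A k0
  have hE := H_pi_le hPn hP1 k0 e
  have hc := hchain (k0 - 2)
  have hz0 : H P (z 0) ≤ (acc k0 A (k0 - 1)).ent := by
    rw [hzH]
    exact ent_comb_le_acc k0 A 0 (k0 - 1) (by omega)
  have hsum : ∑ i ∈ range (k0 - 2), (H P (z (i + 1)) - H P (fun w => dr m (z (i + 1) w))) ≤
      (k0 - 2) * ((acc k0 A (k0 - 1)).ent - (A.map (dr m)).ent) := by
    have h1 : ∀ i ∈ range (k0 - 2), (H P (z (i + 1)) - H P (fun w => dr m (z (i + 1) w))) ≤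
        (acc k0 A (k0 - 1)).ent - (A.map (dr m)).ent := by
      intro i hi
      have hi' := Finset.mem_range.mp hi
      rw [hzH, hdzH]
      have h2 := ent_comb_le_acc k0 A (i + 1) (k0 - 1) (by omega)
      have h3 : (A.map (dr m)).ent ≤ ((comb k0 (pw k0 (i + 1)) A).map (dr m)).ent := by
        rw [(comb_map k0 _ A (dr m)).ent]
        exact ent_le_comb_pw k0 hk _ _
      linarith
    refine (Finset.sum_le_sum h1).trans (le_of_eq ?_)
    rw [Finset.sum_const, Finset.card_range, nsmul_eq_mul, Nat.cast_sub hk]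
    push_cast
    ring
  have hE' : ∑ j, H P (e j) = ∑ j : Fin k0, (A.map (ev m (j : ℕ))).ent :=
    Finset.sum_congr rfl fun j _ => heH j
  have hpi' : H P (fun w => fun j => A.X (w j)) = k0 * A.ent := hpi
  rw [hE'] at hE
  have hfin : (k0 : ℝ) * A.ent ≤ ∑ j : Fin k0, (A.map (ev m (j : ℕ))).ent +
      (acc k0 A (k0 - 1)).ent +
      (k0 - 2) * ((acc k0 A (k0 - 1)).ent - (A.map (dr m)).ent) := by
    linarith
  linarith [hfin]

end RV

end Pool.Agent.H49.STK
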